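import Pool.Agent.L5helper24.TGBath
import Pool.Agent.L5helper49.TG.Geo

/-!
# The equality case of the bound for the volume (job TG9 for helper31)
-/

set_option autoImplicit false

open MeasureTheory Finset

namespace Pool.Agent.L5helper31.TG

/-- TG9. The equality case of the bound for the volume. -/
theorem bath_eq {n : ℕ} (J : Finset (Fin n)) (K : Set (Fin n → ℝ)) (hK : IsClosed K)
    (hv : Convex ℝ K) (hb : Bornology.IsBounded K) (h0 : ∀ y ∈ K, ∀ i, 0 ≤ y i)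
    (hJ : ∀ y ∈ K, ∑ i ∈ J, y i ≤ J.card + 1)
    (hc : ∀ i, ∫ y in K, y i = volume.real K) (he : bd J.card Jᶜ.card ≤ volume.real K) :
    K = {y : Fin n → ℝ | (∀ i, 0 ≤ y i) ∧ ∑ i ∈ J, y i ≤ J.card + 1 ∧
      ∑ i ∈ Jᶜ, y i ≤ Jᶜ.card + 1} :=
  bath_eq_of J K hK hv hb h0 hJ hc he (lint_bd J).le

end Pool.Agent.L5helper31.TG
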