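import Pool.Agent.L5helper68.DH.Defs

/-!
# Geometric realizations of finite complexes: closed, disjoint unions (J7)
-/

set_option autoImplicit false

namespace Pool.Agent.L5helper68.DH

open Set

private theorem faces_finite (c : Code) : (faces c).Finite := by
  classical
  refine (Finset.finite_toSet (c.toFinset.biUnion fun l => l.toFinset.powerset)).subset ?_
  rintro s ⟨-, l, hl, h⟩
  simp only [Finset.coe_biUnion, mem_iUnion, Finset.mem_coe, List.mem_toFinset,
    Finset.mem_powerset]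
  exact ⟨l, hl, fun v hv => List.mem_toFinset.2 (h v hv)⟩

/-- J7 -/
theorem isClosed_real (c : Code) : IsClosed (real (faces c)) := by
  refine (faces_finite c).isClosed_biUnion fun s _ => ?_
  exact ((s.finite_toSet.image vert).isCompact_convexHull ℝ).isClosed

private theorem mem_simplex {s : Finset ℕ} {x : ℕ → ℝ} (hx : x ∈ convexHull ℝ (vert '' (s : Set ℕ))) :
    (∀ u, u ∉ s → x u = 0) ∧ ∑ u ∈ s, x u = 1 := by
  have h1 : convexHull ℝ (vert '' (s : Set ℕ)) ⊆
      {x : ℕ → ℝ | (∀ u, u ∉ s → x u = 0) ∧ ∑ u ∈ s, x u = 1} := by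
    refine convexHull_min ?_ ?_
    · rintro _ ⟨v, hv, rfl⟩
      have hv' : v ∈ s := hv
      refine ⟨fun u hu => ?_, ?_⟩
      · rw [vert, Pi.single_eq_of_ne]
        rintro rfl
        exact hu hv'
      · rw [Finset.sum_eq_single v]
        · rw [vert, Pi.single_eq_same]
        · intro u _ hu
          rw [vert, Pi.single_eq_of_ne hu]
        · intro h
          exact absurd hv' h
    · rintro x ⟨hx1, hx2⟩ y ⟨hy1, hy2⟩ a b _ _ hab
      refine ⟨fun u hu => ?_, ?_⟩
      · simp [hx1 u hu, hy1 u hu]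
      · simp only [Pi.add_apply, Pi.smul_apply, smul_eq_mul, Finset.sum_add_distrib,
          ← Finset.mul_sum, hx2, hy2, mul_one]
        exact hab
  exact h1 hx

private theorem mem_rel {ι : ℕ → ℕ} {c : Code} {s : Finset ℕ} (hs : s ∈ faces (rel ι c)) :
    ∀ v ∈ s, ∃ w, ι w = v := by
  obtain ⟨-, l, hl, h⟩ := hs
  rw [rel, List.mem_map] at hl
  obtain ⟨l', -, rfl⟩ := hl
  intro v hv
  obtain ⟨w, -, hw⟩ := List.mem_map.1 (h v hv)
  exact ⟨w, hw⟩

/-- J7 -/
theorem disjoint_real (c d : Code) : Disjoint (real (faces (rel (fun v => 2 * v) c)))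
    (real (faces (rel (fun v => 2 * v + 1) d))) := by
  rw [Set.disjoint_left]
  intro x hx hy
  rw [real, mem_iUnion₂] at hx hy
  obtain ⟨s, hs, hxs⟩ := hx
  obtain ⟨t, ht, hxt⟩ := hy
  obtain ⟨-, h1⟩ := mem_simplex hxs
  obtain ⟨h2, -⟩ := mem_simplex hxt
  have h3 : ∑ u ∈ s, x u = 0 := by
    refine Finset.sum_eq_zero fun u hu => h2 u fun hu' => ?_
    obtain ⟨w, hw⟩ := mem_rel hs u hu
    obtain ⟨w', hw'⟩ := mem_rel ht u hu'
    omega
  rw [h1] at h3
  exact one_ne_zero h3

private theorem faces_append (c d : Code) : faces (c ++ d) = faces c ∪ faces d := by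
  ext s
  simp only [faces, mem_ofPred_eq, mem_union, List.mem_append]
  constructor
  · rintro ⟨h, l, hl | hl, h'⟩
    · exact Or.inl ⟨h, l, hl, h'⟩
    · exact Or.inr ⟨h, l, hl, h'⟩
  · rintro (⟨h, l, hl, h'⟩ | ⟨h, l, hl, h'⟩)
    · exact ⟨h, l, Or.inl hl, h'⟩
    · exact ⟨h, l, Or.inr hl, h'⟩

/-- J7 -/
theorem real_sum (c d : Code) : real (faces (sum c d)) =
    real (faces (rel (fun v => 2 * v) c)) ∪ real (faces (rel (fun v => 2 * v + 1) d)) := by
  rw [sum, faces_append, real, real, real, biUnion_union]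

end Pool.Agent.L5helper68.DH
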