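import Pool.Agent.L5helper66.TD.Defs2

/-!
# The relations of the elliptic family (NK1)
-/

set_option autoImplicit false

open scoped TensorProduct RealInnerProductSpace

namespace Pool.Agent.L5helper49.NK

open Pool.Agent.L5helper66.TD

/-- NK1 -/
theorem G_cm (x y z : ℝ) (hz : z ^ 2 = 9 - 2 * x - 3 * x ^ 2) (hy : 2 * y ^ 2 = 3 * (3 - x - z)) :
    cm (1 + x + y) (3 - x + y) (2 * x) (2 * y) (4 - y - z) (z - y) =
      32 / 3 * y ^ 2 * (3 - 2 * x - 3 * x ^ 2 + z * (1 + 3 * x)) ^ 2 := by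
  have hx : x = 3 - z - 2 / 3 * y ^ 2 := by linarith
  subst hx
  unfold cm
  linear_combination ((-224/9)*y^6 + (-96)*y^4*z + (1856/9)*y^4 + (-96)*y^2*z^2 + (352)*y^2*z +
    (-256/3)*y^2 + (-128)*z^2 + (640)*z + (-768)) * hz

/-- NK1, second part -/
theorem G_pos (x y z : ℝ) (hx : 1 < x) (hx2 : x < 4 / 3) (hy0 : 0 < y) (hz0 : 0 < z)
    (hz : z ^ 2 = 9 - 2 * x - 3 * x ^ 2) (hy : 2 * y ^ 2 = 3 * (3 - x - z)) :
    0 < 3 - 2 * x - 3 * x ^ 2 + z * (1 + 3 * x) ∧ 1 < z ∧ z < 2 ∧ y < 1 ∧ x - 1 < y := by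
  have hy2 : 0 < y ^ 2 := by positivity
  have h3 : z < 3 - x := by linarith
  refine ⟨?_, ?_, by linarith, ?_, ?_⟩
  · have h1 : 3 * x ^ 2 + 2 * x - 3 < z * (1 + 3 * x) := by
      refine lt_of_pow_lt_pow_left₀ 2 (by positivity) ?_
      have h2 : (z * (1 + 3 * x)) ^ 2 - (3 * x ^ 2 + 2 * x - 3) ^ 2 =
          4 * x * (4 - 3 * x) * (3 * x + 2) * (x + 2) := by
        rw [mul_pow, hz]; ring
      have h4 : 0 < 4 * x * (4 - 3 * x) * (3 * x + 2) * (x + 2) := by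
        have : 0 < 4 - 3 * x := by linarith
        positivity
      linarith
    linarith
  · refine lt_of_pow_lt_pow_left₀ 2 hz0.le ?_
    have : 0 < (4 - 3 * x) * (x + 2) := mul_pos (by linarith) (by linarith)
    nlinarith
  · have h1 : 7 / 3 - x < z := by
      refine lt_of_pow_lt_pow_left₀ 2 hz0.le ?_
      have : 0 < (4 - 3 * x) * (3 * x + 2) := mul_pos (by linarith) (by linarith)
      nlinarith
    refine lt_of_pow_lt_pow_left₀ 2 (by norm_num) ?_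
    linarith
  · have h1 : z < 3 - x - 2 / 3 * (x - 1) ^ 2 := by
      have h0 : 0 ≤ 3 - x - 2 / 3 * (x - 1) ^ 2 := by nlinarith
      refine lt_of_pow_lt_pow_left₀ 2 h0 ?_
      have h2 : (3 - x - 2 / 3 * (x - 1) ^ 2) ^ 2 - (9 - 2 * x - 3 * x ^ 2) =
          4 * (x - 1) + 4 / 3 * (x - 1) ^ 2 + 4 / 3 * (x - 1) ^ 3 + 4 / 9 * (x - 1) ^ 4 := by
        ring
      have h4 : 0 < x - 1 := by linarith
      have h5 : 0 < 4 * (x - 1) + 4 / 3 * (x - 1) ^ 2 + 4 / 3 * (x - 1) ^ 3 +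
          4 / 9 * (x - 1) ^ 4 := by positivity
      rw [hz]
      linarith
    refine lt_of_pow_lt_pow_left₀ 2 hy0.le ?_
    linarith

end Pool.Agent.L5helper49.NK
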